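import Mathlib
import Pool.Agent.H317CC.Stage

/-!
# A countably compact functional extension, under CH

Assuming the continuum hypothesis there is a functional extension of `ℕ` whose S-topology is
Hausdorff and countably compact.  It is a family `Z` of ultrafilters on `ℕ` obtained in `ω₁` steps;
at each step all limits of sequences of the previous family along one sufficiently generic
ultrafilter `v` are added (`v` separates any two sequences of members of the previous family that
differ `v`-almost everywhere).
-/

open Set Filter Cardinal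

namespace Pool.Agent.Results.MP_77d395_lc.CountablyCompact

open Classical in
/-- `χ_{φψ}`: the value is `one` where `φ = ψ` and `zero` elsewhere. -/
noncomputable def chi {A B C : Type} (zero one : C) (φ ψ : A → B) : A → C :=
  fun x => if φ x = ψ x then one else zero

open Classical in
/-- the characteristic function of `A ⊆ X` -/
noncomputable def chiSet {X : Type} (zero one : X) (A : Set X) : X → X :=
  fun x => if x ∈ A then one else zero

/-- A functional extension `Y = *X` of a set `X` with two distinguished distinct elements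
`zero, one`.  The inclusion of `X` in `Y` is the injective, non surjective map `emb`. -/
structure FunctionalExtension (X : Type) (zero one : X) where
  /-- the set `*X` -/
  Y : Type
  /-- the inclusion -/
  emb : X → Y
  emb_injective : Function.Injective emb
  /-- the superset is proper -/
  emb_not_surjective : ¬ Function.Surjective emb
  /-- the function `*f` -/
  star : (X → X) → Y → Y
  /-- `*f` extends `f` -/
  star_emb : ∀ f x, star f (emb x) = emb (f x)
  /-- (comp) -/
  comp : ∀ f g, star (g ∘ f) = star g ∘ star f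
  /-- (equ) -/
  equ : ∀ f g, star (chi zero one f g) = chi (emb zero) (emb one) (star f) (star g)
  /-- (dir) -/
  dir : ∀ ξ η, ∃ p₁ p₂ : X → X, ∃ ζ, star p₁ ζ = ξ ∧ star p₂ ζ = η

/-- `*A` -/
def FunctionalExtension.starSet {X : Type} {zero one : X} (E : FunctionalExtension X zero one)
    (A : Set X) : Set E.Y :=
  {ξ | E.star (chiSet zero one A) ξ = E.emb one}

/-- the S-topology, generated by the sets `*A` -/
@[reducible] def FunctionalExtension.sTopology {X : Type} {zero one : X} (E : FunctionalExtension X zero one) :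
    TopologicalSpace E.Y :=
  TopologicalSpace.generateFrom {S | ∃ A : Set X, S = E.starSet A}

/-- Hausdorff, and every countable open cover has a finite subcover -/
def IsCountablyCompactSpace (Y : Type) (t : TopologicalSpace Y) : Prop :=
  T2Space Y ∧ ∀ U : ℕ → Set Y, (∀ n, IsOpen (U n)) → (⋃ n, U n) = Set.univ →
    ∃ F : Finset ℕ, (⋃ n ∈ F, U n) = Set.univ

open H317.CC

/-- the extension determined by a good family of ultrafilters -/
noncomputable def ext (Z : Set (Ultrafilter ℕ)) (hZ : Good Z)
    (hns : ∃ u ∈ Z, ∀ n : ℕ, u ≠ pure n) : FunctionalExtension ℕ 0 1 where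
  Y := Z
  emb := fun n => ⟨pure n, hZ.pure_mem n⟩
  emb_injective := by
    intro a b hab
    exact Ultrafilter.pure_injective (congrArg Subtype.val hab)
  emb_not_surjective := by
    intro hs
    obtain ⟨u, hu, hun⟩ := hns
    obtain ⟨n, hn⟩ := hs ⟨u, hu⟩
    exact hun n (congrArg Subtype.val hn).symm
  star := fun f u => ⟨u.1.map f, hZ.inv u.1 u.2 f⟩
  star_emb := by
    intro f x
    apply Subtype.ext
    exact Ultrafilter.map_pure _ _
  comp := by
    intro f g
    funext u
    apply Subtype.ext
    exact (Ultrafilter.map_map _ _ _).symm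
  equ := by
    classical
    intro f g
    funext u
    apply Subtype.ext
    unfold chi
    by_cases h : u.1.map f = u.1.map g
    · have h1 := hZ.hau u.1 u.2 f g h
      have h2 : (⟨u.1.map f, hZ.inv u.1 u.2 f⟩ : Z) = ⟨u.1.map g, hZ.inv u.1 u.2 g⟩ :=
        Subtype.ext h
      simp only [h2, if_true]
      apply uext
      intro A
      rw [H317.CC.mem_map']
      constructor
      · intro hA
        obtain ⟨x, hx1, hx2⟩ := Ultrafilter.nonempty_of_mem (Filter.inter_mem hA h1)
        simp only [Set.mem_ofPred_eq] at hx1 hx2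
        rw [if_pos hx2] at hx1
        exact hx1
      · intro hA
        refine Filter.mem_of_superset h1 ?_
        intro x hx
        simp only [Set.mem_ofPred_eq] at hx ⊢
        rw [if_pos hx]
        exact hA
    · have h1 : {x | f x = g x} ∉ u.1 := by
        intro hmem
        apply h
        apply uext
        intro A
        rw [H317.CC.mem_map', H317.CC.mem_map']
        constructor
        · intro hA
          refine Filter.mem_of_superset (Filter.inter_mem hA hmem) ?_
          rintro x ⟨hx1, hx2⟩
          simp only [Set.mem_ofPred_eq] at hx1 hx2 ⊢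
          rw [← hx2]; exact hx1
        · intro hA
          refine Filter.mem_of_superset (Filter.inter_mem hA hmem) ?_
          rintro x ⟨hx1, hx2⟩
          simp only [Set.mem_ofPred_eq] at hx1 hx2 ⊢
          rw [hx2]; exact hx1
      have h2 : ¬ ((⟨u.1.map f, hZ.inv u.1 u.2 f⟩ : Z) = ⟨u.1.map g, hZ.inv u.1 u.2 g⟩) :=
        fun hh => h (congrArg Subtype.val hh)
      rw [if_neg h2]
      apply uext
      intro A
      rw [H317.CC.mem_map']
      have h3 := Ultrafilter.compl_mem_iff_notMem.2 h1
      constructor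
      · intro hA
        obtain ⟨x, hx1, hx2⟩ := Ultrafilter.nonempty_of_mem (Filter.inter_mem hA h3)
        simp only [Set.mem_ofPred_eq, Set.mem_compl_iff] at hx1 hx2
        rw [if_neg hx2] at hx1
        exact hx1
      · intro hA
        refine Filter.mem_of_superset h3 ?_
        intro x hx
        simp only [Set.mem_ofPred_eq, Set.mem_compl_iff] at hx ⊢
        rw [if_neg hx]
        exact hA
  dir := by
    intro ξ η
    obtain ⟨w, hw, h1, h2⟩ := hZ.dir ξ.1 ξ.2 η.1 η.2
    exact ⟨_, _, ⟨w, hw⟩, Subtype.ext h1, Subtype.ext h2⟩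

theorem mem_starSet {Z : Set (Ultrafilter ℕ)} {hZ : Good Z}
    {hns : ∃ u ∈ Z, ∀ n : ℕ, u ≠ pure n} {A : Set ℕ} {u : (ext Z hZ hns).Y} :
    u ∈ (ext Z hZ hns).starSet A ↔ A ∈ (u : Z).1 := by
  classical
  have hval : ((ext Z hZ hns).star (chiSet 0 1 A) u : Z).1 =
    (u : Z).1.map (chiSet 0 1 A) := rfl
  constructor
  · intro h
    have h1 : (u : Z).1.map (chiSet 0 1 A) = pure 1 := congrArg Subtype.val h
    have h2 : ({1} : Set ℕ) ∈ (u : Z).1.map (chiSet 0 1 A) := by rw [h1]; exact rfl
    rw [H317.CC.mem_map'] at h2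
    refine Filter.mem_of_superset h2 ?_
    intro x hx
    simp only [Set.mem_ofPred_eq, chiSet, Set.mem_singleton_iff] at hx
    by_contra hxA
    simp [hxA] at hx
  · intro h
    apply Subtype.ext
    rw [hval]
    apply uext
    intro B
    rw [H317.CC.mem_map']
    constructor
    · intro hB
      obtain ⟨x, hx1, hx2⟩ := Ultrafilter.nonempty_of_mem (Filter.inter_mem hB h)
      simp only [Set.mem_ofPred_eq, chiSet] at hx1
      rw [if_pos hx2] at hx1
      exact hx1
    · intro hB
      refine Filter.mem_of_superset h ?_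
      intro x hx
      simp only [Set.mem_ofPred_eq, chiSet]
      rw [if_pos hx]
      exact hB

/-- Under CH there is a functional extension of `ℕ` (with the distinguished elements `0`, `1`)
whose S-topology is Hausdorff and countably compact. -/
theorem result (hCH : Cardinal.continuum.{0} = Cardinal.aleph 1) :
    ∃ E : FunctionalExtension ℕ 0 1, IsCountablyCompactSpace E.Y E.sTopology := by
  obtain ⟨Z, hZ, hseq⟩ := H317.CC.main hCH
  have hns : ∃ u ∈ Z, ∀ n : ℕ, u ≠ pure n := by
    obtain ⟨w, hw, v, hv, hA⟩ := hseq (fun n => pure n) hZ.pure_mem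
    refine ⟨w, hw, ?_⟩
    rintro n rfl
    have h1 : ({n} : Set ℕ) ∈ (pure n : Ultrafilter ℕ) := rfl
    rw [hA] at h1
    have h2 : ({n}ᶜ : Set ℕ) ∈ v := hv (by simp)
    obtain ⟨x, hx1, hx2⟩ := Ultrafilter.nonempty_of_mem (Filter.inter_mem h1 h2)
    exact hx2 hx1
  refine ⟨ext Z hZ hns, ?_, ?_⟩
  · let := (ext Z hZ hns).sTopology
    refine ⟨?_⟩
    intro x y hxy
    have hne : (x : Z).1 ≠ (y : Z).1 := fun h => hxy (Subtype.ext h)
    obtain ⟨A, hA1, hA2⟩ := exists_sep_set hne
    refine ⟨(ext Z hZ hns).starSet A, (ext Z hZ hns).starSet Aᶜ,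
      TopologicalSpace.isOpen_generateFrom_of_mem ⟨A, rfl⟩,
      TopologicalSpace.isOpen_generateFrom_of_mem ⟨Aᶜ, rfl⟩, mem_starSet.2 hA1,
      mem_starSet.2 (Ultrafilter.compl_mem_iff_notMem.2 hA2), ?_⟩
    rw [Set.disjoint_left]
    intro u h1 h2
    exact Ultrafilter.compl_mem_iff_notMem.1 (mem_starSet.1 h2) (mem_starSet.1 h1)
  · let := (ext Z hZ hns).sTopology
    intro U hU hcov
    by_contra hcon
    push Not at hcon
    have hpick : ∀ N : ℕ, ∃ z : Z, ∀ n < N, (z : (ext Z hZ hns).Y) ∉ U n := by
      intro N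
      have h := hcon (Finset.range N)
      rw [Set.ne_univ_iff_exists_notMem] at h
      obtain ⟨z, hz⟩ := h
      refine ⟨z, fun n hn hzn => hz ?_⟩
      simp only [Set.mem_iUnion]
      exact ⟨n, Finset.mem_range.2 hn, hzn⟩
    choose z hz using hpick
    obtain ⟨w, hw, v, hv, hA⟩ := hseq (fun n => (z n).1) (fun n => (z n).2)
    have hwcov : (⟨w, hw⟩ : (ext Z hZ hns).Y) ∈ ⋃ n, U n := by rw [hcov]; trivial
    obtain ⟨n, hn⟩ := Set.mem_iUnion.1 hwcov
    have hbasis : ∀ S : Set (ext Z hZ hns).Y, IsOpen S → (⟨w, hw⟩ : (ext Z hZ hns).Y) ∈ S →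
        ∃ A : Set ℕ, A ∈ w ∧ (ext Z hZ hns).starSet A ⊆ S := by
      intro S hS hwS
      induction hS with
      | basic S hS =>
        obtain ⟨A, rfl⟩ := hS
        exact ⟨A, mem_starSet.1 hwS, subset_rfl⟩
      | univ => exact ⟨Set.univ, Filter.univ_mem, fun _ _ => trivial⟩
      | inter S T _ _ ihS ihT =>
        obtain ⟨A, hA1, hA2⟩ := ihS hwS.1
        obtain ⟨B, hB1, hB2⟩ := ihT hwS.2
        refine ⟨A ∩ B, Filter.inter_mem hA1 hB1, ?_⟩
        intro u hu
        have hu' := mem_starSet.1 hu
        exact ⟨hA2 (mem_starSet.2 (Filter.mem_of_superset hu' inter_subset_left)),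
          hB2 (mem_starSet.2 (Filter.mem_of_superset hu' inter_subset_right))⟩
      | sUnion 𝒮 _ ih =>
        obtain ⟨S, hS, hwS'⟩ := hwS
        obtain ⟨A, hA1, hA2⟩ := ih S hS hwS'
        exact ⟨A, hA1, hA2.trans (Set.subset_sUnion_of_mem hS)⟩
    obtain ⟨A, hA1, hA2⟩ := hbasis (U n) (hU n) hn
    have h1 := (hA A).1 hA1
    have h2 : {k : ℕ | n < k} ∈ v := hv (by
      rw [Filter.mem_cofinite]
      refine (Set.finite_Iic n).subset ?_
      intro k hk
      simp only [Set.mem_compl_iff, Set.mem_ofPred_eq, not_lt] at hk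
      exact hk)
    obtain ⟨k, hk1, hk2⟩ := Ultrafilter.nonempty_of_mem (Filter.inter_mem h1 h2)
    exact hz k n hk2 (hA2 (mem_starSet.2 hk1))

end Pool.Agent.Results.MP_77d395_lc.CountablyCompact
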